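import Pool.Agent.H543.MQ.Inst

/-!
# Bounded clusters of `x` for which `x ^ 2 + (x + 1) ^ 2 + (x + 2) ^ 2` has at most two prime factors
-/

set_option autoImplicit false

namespace Pool.Agent.Results.MP_63eb26_nt.ClustersOfAlmostPrimes

open Finset Filter Polynomial

/-- `x ^ 2 + (x + 1) ^ 2 + (x + 2) ^ 2` has at most two prime factors (with multiplicity), all of them
`≥ N ^ (6 / 25)`, and `g x` has no prime factor `< N ^ δ`. -/
def Good (g : ℤ[X]) (δ : ℝ) (N x : ℕ) : Prop :=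
  (x ^ 2 + (x + 1) ^ 2 + (x + 2) ^ 2).primeFactorsList.length ≤ 2 ∧
  (∀ p : ℕ, p.Prime → p ∣ x ^ 2 + (x + 1) ^ 2 + (x + 2) ^ 2 → (N : ℝ) ^ (6 / 25 : ℝ) ≤ p) ∧
  ∀ p : ℕ, p.Prime → (p : ℤ) ∣ g.eval (x : ℤ) → (N : ℝ) ^ δ ≤ p

open Classical in
/-- The number of the `n` in `(N, N + X]` such that all `n + h`, `h ∈ H`, are good. -/
noncomputable def number (g : ℤ[X]) (δ : ℝ) (H : Finset ℕ) (N X : ℕ) : ℕ :=
  ((Ioc N (N + X)).filter (fun n : ℕ => ∀ h ∈ H, Good g δ N (n + h))).card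

/-- There is a progression `n, n + d, ..., n + (l - 1) d` in `(N, N + X]` with difference
`1 ≤ d ≤ (log N) ^ B` such that all `n + j d + h`, `j < l`, `h ∈ H`, are good. -/
def Progression (g : ℤ[X]) (δ : ℝ) (H : Finset ℕ) (l B N X : ℕ) : Prop :=
  ∃ n d : ℕ, N < n ∧ n + (l - 1) * d ≤ N + X ∧ 1 ≤ d ∧ (d : ℝ) ≤ Real.log N ^ B ∧
    ∀ j < l, ∀ h ∈ H, Good g δ N (n + j * d + h)

/-- The pattern `H` occurs again and again: for every `l` there are infinitely many `N` such that the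
interval `(N, N + X]`, `X = ⌈N ^ (1 - δ₀)⌉`, contains at least `X / (log N) ^ D` integers `n` with all
`n + h`, `h ∈ H`, good, and a progression of length `l` of such `n` with difference at most a power of
`log N`. -/
def Recurrent (g : ℤ[X]) (δ₀ δ : ℝ) (D : ℕ) (H : Finset ℕ) : Prop :=
  ∀ l : ℕ, 2 ≤ l → ∃ B : ℕ, ∃ᶠ N : ℕ in atTop,
    (⌈(N : ℝ) ^ (1 - δ₀)⌉₊ : ℝ) / Real.log N ^ D ≤ number g δ H N ⌈(N : ℝ) ^ (1 - δ₀)⌉₊ ∧
    Progression g δ H l B N ⌈(N : ℝ) ^ (1 - δ₀)⌉₊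

open Classical in
/-- **Bounded clusters of `x` with `x ^ 2 + (x + 1) ^ 2 + (x + 2) ^ 2` a `P₂`.** -/
theorem result (g : ℤ[X]) (hg : g ≠ 0)
    (hfix : ∀ p : ℕ, p.Prime → ∃ n : ℤ, ¬ (p : ℤ) ∣ (n ^ 2 + (n + 1) ^ 2 + (n + 2) ^ 2) * g.eval n) :
    ∃ δ₀ : ℝ, 0 < δ₀ ∧ ∀ m : ℕ, ∃ (K D : ℕ) (δ : ℝ), 0 < δ ∧
      -- every set with at least `K` elements contains a pattern with `m` elements
      (∀ S : Finset ℕ, K ≤ S.card → ∀ l : ℕ, 2 ≤ l → ∃ B : ℕ, ∀ᶠ N : ℕ in atTop,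
        ∀ X : ℕ, (N : ℝ) ^ (1 - δ₀) ≤ X → 2 * X ≤ N → ∃ H ⊆ S, H.card = m ∧
          X / Real.log N ^ D ≤ number g δ H N X ∧ Progression g δ H l B N X) ∧
      -- a positive proportion of the patterns with `m` elements are recurrent
      (∀ U : Finset ℕ, K ≤ U.card → U.card.choose m ≤
        K.choose m * ((U.powersetCard m).filter (Recurrent g δ₀ δ D)).card) := by
  have hval' : ∀ x : ℤ, Pool.Agent.H543.MQ.val 3 6 5 x = x ^ 2 + (x + 1) ^ 2 + (x + 2) ^ 2 := by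
    intro x
    unfold Pool.Agent.H543.MQ.val
    ring
  have hval : ∀ x : ℕ, Pool.Agent.H543.MQ.val 3 6 5 x =
      ((x ^ 2 + (x + 1) ^ 2 + (x + 2) ^ 2 : ℕ) : ℤ) := by
    intro x
    rw [hval']
    push_cast
    ring
  have hsq : ¬ IsSquare ((6 : ℤ) ^ 2 - 4 * 3 * 5) := by
    rintro ⟨r, hr⟩
    have h1 := mul_self_nonneg r
    omega
  obtain ⟨δ₀, h0, h⟩ := Pool.Agent.H543.MQ.inst 3 6 5 (by norm_num) hsq g hg
    (by
      intro p hp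
      obtain ⟨n, hn⟩ := hfix p hp
      exact ⟨n, by rw [hval']; exact hn⟩)
  refine ⟨δ₀, h0, fun m => ?_⟩
  obtain ⟨K, D, δ, hδ, h⟩ := h m
  refine ⟨K, D, δ, hδ, h (fun N x => Good g δ N x) (fun N x hx => ?_)⟩
  obtain ⟨h1, h2, h3⟩ := hx
  rw [hval, Int.natAbs_natCast] at h1
  exact ⟨h1, fun p hp hpx => h2 p hp (by rw [hval]; exact_mod_cast hpx), h3⟩

end Pool.Agent.Results.MP_63eb26_nt.ClustersOfAlmostPrimes
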